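import Pool.Agent.H762R3.BoxSwitch

/-!
# MP_dfd561_co: empty boxes of volume `O(n^2)` in high-dimensional permutations

For every `d ≥ 1` there is a constant `C` such that for every `m` some `d`-dimensional permutation
of order `n = 2^m` has no empty box of volume larger than `C n^2`.
-/

set_option autoImplicit false

namespace Pool.Agent.Results.MP_dfd561_co.AllDimensions

/-- `A : [n]^(d+1) → {0,1}` (`true` stands for `1`) has exactly one `1` on every line. -/
def IsPermutation (d n : ℕ) (A : (Fin (d + 1) → Fin n) → Bool) : Prop :=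
  ∀ (i : Fin (d + 1)) (α : Fin (d + 1) → Fin n), ∃! x : Fin n, A (Function.update α i x) = true

/-- the box `T_1 × ... × T_{d+1}` is empty in `A`. -/
def IsEmptyBox (d n : ℕ) (A : (Fin (d + 1) → Fin n) → Bool) (T : Fin (d + 1) → Finset (Fin n)) :
    Prop :=
  ∀ α : Fin (d + 1) → Fin n, (∀ i, α i ∈ T i) → A α = false

/-- the volume of the box `T_1 × ... × T_{d+1}`. -/
def volume (d n : ℕ) (T : Fin (d + 1) → Finset (Fin n)) : ℕ := ∏ i, (T i).card

open H762R3.BoxSwitch

theorem transport (d n : ℕ) (G : Type) [Fintype G] (hG : Fintype.card G = n) (D : ℕ)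
    (B : (Fin (d + 1) → G) → Bool)
    (hB : ∀ i γ, ∃! x, B (Function.update γ i x) = true)
    (hT : ∀ T : Fin (d + 1) → Finset G, (∀ α, (∀ i, α i ∈ T i) → B α = false) →
        ∏ i, (T i).card ≤ D) :
    ∃ A : (Fin (d + 1) → Fin n) → Bool, IsPermutation d n A ∧
      ∀ T : Fin (d + 1) → Finset (Fin n), IsEmptyBox d n A T → volume d n T ≤ D := by
  classical
  let σ : Fin n ≃ G := (Fintype.equivFinOfCardEq hG).symm
  refine ⟨fun α => B (fun i => σ (α i)), ?_, ?_⟩
  · intro i α
    obtain ⟨x, hx, hu⟩ := hB i (fun j => σ (α j))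
    have hupd : ∀ y : Fin n, (fun j => σ (Function.update α i y j)) =
        Function.update (fun j => σ (α j)) i (σ y) := by
      intro y
      funext j
      by_cases hj : j = i
      · subst hj; simp
      · simp [Function.update_of_ne hj]
    refine ⟨σ.symm x, ?_, ?_⟩
    · show B (fun j => σ (Function.update α i (σ.symm x) j)) = true
      rw [hupd, Equiv.apply_symm_apply]
      exact hx
    · intro y hy
      replace hy : B (fun j => σ (Function.update α i y j)) = true := hy
      rw [hupd] at hy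
      rw [← hu _ hy, Equiv.symm_apply_apply]
  · intro T hE
    have h1 := hT (fun i => (T i).map σ.toEmbedding) (by
      intro α hα
      have h2 := hE (fun i => σ.symm (α i)) (by
        intro i
        obtain ⟨y, hy, hyα⟩ := Finset.mem_map.mp (hα i)
        rw [← hyα]
        simpa using hy)
      simpa using h2)
    simpa [volume] using h1

theorem small (d m : ℕ) :
    ∃ A : (Fin (d + 1) → Fin (2 ^ m)) → Bool, IsPermutation d (2 ^ m) A ∧
      ∀ T : Fin (d + 1) → Finset (Fin (2 ^ m)), IsEmptyBox d (2 ^ m) A T →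
        volume d (2 ^ m) T ≤ (2 ^ m) ^ (d + 1) := by
  apply transport d (2 ^ m) (Fin m → ZMod 2) (by simp [ZMod.card]) _ (A [])
  · intro i γ
    exact A_perm (by intro x; funext i; exact CharTwo.add_self_eq_zero _) [] (by simp) i γ
  · intro T _
    calc ∏ i, (T i).card ≤ ∏ _i : Fin (d + 1), 2 ^ m := by
          apply Finset.prod_le_prod'
          intro i _
          refine le_trans (Finset.card_le_univ _) ?_
          simp [ZMod.card]
      _ = (2 ^ m) ^ (d + 1) := by simp

/-- For every `d ≥ 1` there is a constant `C` such that for every `m` there is a `d`-dimensional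
permutation of order `n = 2^m` all of whose empty boxes have volume at most `C n^2`. -/
theorem result : ∀ d : ℕ, 1 ≤ d → ∃ C : ℕ, ∀ m : ℕ,
    ∃ A : (Fin (d + 1) → Fin (2 ^ m)) → Bool, IsPermutation d (2 ^ m) A ∧
      ∀ T : Fin (d + 1) → Finset (Fin (2 ^ m)), IsEmptyBox d (2 ^ m) A T →
        volume d (2 ^ m) T ≤ C * (2 ^ m) ^ 2 := by
  intro d hd
  refine ⟨16 * 4 ^ (d + 1) * (d + 1 + 1) + 2 ^ ((2 * d + 5) * (d + 1)), ?_⟩
  intro m
  by_cases hm : 2 * d + 5 ≤ m
  · have hcard : Fintype.card (Fin m → ZMod 2) = 2 ^ m := by simp [ZMod.card]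
    obtain ⟨t, ht⟩ : ∃ t, m * (d + 1) = 3 + 2 * (d + 1) + m + t := by
      have : 3 + 2 * (d + 1) + m ≤ m * (d + 1) := by nlinarith
      exact ⟨m * (d + 1) - (3 + 2 * (d + 1) + m), by omega⟩
    have hM : 8 * (4 ^ (d + 1) * Fintype.card (Fin m → ZMod 2)) * 2 ^ t =
        Fintype.card (Fin m → ZMod 2) ^ (d + 1) := by
      have h4 : (4 : ℕ) ^ (d + 1) = 2 ^ (2 * (d + 1)) := by rw [pow_mul]; norm_num
      rw [hcard, h4, ← pow_mul, ht, pow_add 2 (3 + 2 * (d + 1) + m) t,
        pow_add 2 (3 + 2 * (d + 1)) m, pow_add 2 3 (2 * (d + 1))]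
      ring
    obtain ⟨B, hB, hT⟩ := exists_table (k := d + 1) (G := Fin m → ZMod 2)
      (by intro x; funext i; exact CharTwo.add_self_eq_zero _) (by omega) (2 ^ t) (by positivity) hM
    obtain ⟨A, hA, hA2⟩ := transport d (2 ^ m) (Fin m → ZMod 2) hcard _ B hB hT
    refine ⟨A, hA, fun T hE => le_trans (hA2 T hE) ?_⟩
    rw [hcard]
    push_cast
    nlinarith [Nat.zero_le (2 ^ ((2 * d + 5) * (d + 1)) * (2 ^ m) ^ 2)]
  · obtain ⟨A, hA, hA2⟩ := small d m
    refine ⟨A, hA, fun T hE => le_trans (hA2 T hE) ?_⟩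
    have h1 : (2 ^ m) ^ (d + 1) ≤ 2 ^ ((2 * d + 5) * (d + 1)) := by
      rw [← pow_mul]
      apply Nat.pow_le_pow_right (by norm_num)
      exact Nat.mul_le_mul_right _ (by omega)
    have h2 : 1 ≤ (2 ^ m) ^ 2 := Nat.one_le_pow _ _ (by positivity)
    calc (2 ^ m) ^ (d + 1) ≤ 2 ^ ((2 * d + 5) * (d + 1)) * 1 := by rw [mul_one]; exact h1
      _ ≤ (16 * 4 ^ (d + 1) * (d + 1 + 1) + 2 ^ ((2 * d + 5) * (d + 1))) * (2 ^ m) ^ 2 :=
        Nat.mul_le_mul (Nat.le_add_left _ _) h2

end Pool.Agent.Results.MP_dfd561_co.AllDimensions
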